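import Pool.Agent.KS6_44.CP.Cyc

namespace Pool.Agent.KS6_44.CP

open Equiv

lemma closure_eq_normalClosure {P : Type} [Group P] (τ : P) :
    Subgroup.closure (conjugatesOf τ) = Subgroup.normalClosure {τ} := by
  rw [Subgroup.normalClosure, Group.conjugatesOfSet]
  simp

lemma closure_alt {p : ℕ} (hp : 3 ≤ p) (τ : alternatingGroup (Pt p)) (hτ : τ ≠ 1) :
    Subgroup.closure (conjugatesOf τ) = ⊤ := by
  rw [closure_eq_normalClosure]
  have hs : IsSimpleGroup (alternatingGroup (Pt p)) :=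
    alternatingGroup.isSimpleGroup (by simp; omega)
  have hn : (Subgroup.normalClosure {τ}).Normal := Subgroup.normalClosure_normal
  refine (hn.eq_bot_or_eq_top).resolve_left fun h => hτ ?_
  have : τ ∈ Subgroup.normalClosure {τ} := Subgroup.subset_normalClosure rfl
  rw [h] at this
  exact this

lemma rot_two : rot 2 = Equiv.swap (Sum.inl 0) (Sum.inl 1) := by
  ext x
  revert x
  decide

lemma closure_two : Subgroup.closure (conjugatesOf (rot 2)) = ⊤ := by
  rw [eq_top_iff, ← Equiv.Perm.closure_isSwap, Subgroup.closure_le]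
  rintro τ ⟨x, y, hxy, rfl⟩
  apply Subgroup.subset_closure
  have h9 : IsConj (Equiv.swap (Sum.inl 0 : Pt 2) (Sum.inl 1)) (Equiv.swap x y) :=
    Equiv.Perm.isConj_swap (by decide) hxy
  rw [rot_two]
  exact h9

theorem bad {p : ℕ} (hp : p.Prime) (l : Option (Fin p) → ℕ) (hl : ∀ i, (l i).Prime)
    (hinj : Function.Injective l) :
    ∃ (G : Type) (_ : Group G) (_ : Finite G) (c : G),
      Subgroup.closure (conjugatesOf c) = ⊤ ∧ c ^ (p * ∏ i, l i) = 1 ∧
      ∀ z ∈ conjugatesOf c, ∃ k : ℕ, Commute (c ^ k) z ∧ c ^ k ∉ Subgroup.center G := by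
  have hfin : ∀ {P : Type} [Group P] [Finite P] (τ : P), τ ^ p = 1 →
      (∃ (G : Type) (_ : Group G) (_ : Finite G) (c : G),
      Subgroup.closure (conjugatesOf c) = ⊤ ∧ c ^ (orderOf τ * ∏ i, l i) = 1 ∧
      ∀ z ∈ conjugatesOf c, ∃ k : ℕ, Commute (c ^ k) z ∧ c ^ k ∉ Subgroup.center G) →
      ∃ (G : Type) (_ : Group G) (_ : Finite G) (c : G),
      Subgroup.closure (conjugatesOf c) = ⊤ ∧ c ^ (p * ∏ i, l i) = 1 ∧
      ∀ z ∈ conjugatesOf c, ∃ k : ℕ, Commute (c ^ k) z ∧ c ^ k ∉ Subgroup.center G := by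
    intro P _ _ τ hτ
    rintro ⟨G, i1, i2, c, h1, h2, h3⟩
    refine ⟨G, i1, i2, c, h1, ?_, h3⟩
    obtain ⟨t, ht⟩ := orderOf_dvd_of_pow_eq_one hτ
    obtain ⟨L, hL⟩ : ∃ L, L = ∏ i, l i := ⟨_, rfl⟩
    rw [← hL] at h2 ⊢
    have : p * L = (orderOf τ * L) * t := by
      have e : p * L = (orderOf τ * t) * L := congrArg (· * L) ht
      rw [e]; ring
    rw [this, pow_mul, h2, one_pow]
  rcases hp.eq_two_or_odd' with rfl | hodd
  · refine hfin (rot 2) (rot_pow le_rfl) ?_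
    refine construct (rot 2) closure_two (stab 2 (MonoidHom.id _))
      (stab_ne_top (by norm_num) fun a => ⟨Equiv.swap (Sum.inr a) (Sum.inl 0), 0, by simp⟩)
      (stab_self (rot_inr 2)) (stab_cover (rot_inr 2)) l hl hinj
  · have hp3 : 3 ≤ p := by
      have := hp.two_le
      rcases hodd with ⟨m, hm⟩
      omega
    obtain ⟨τ, hτ⟩ : ∃ τ : alternatingGroup (Pt p), (τ : Perm (Pt p)) = rot p :=
      ⟨⟨rot p, Perm.mem_alternatingGroup.2 (rot_sign hodd)⟩, rfl⟩
    have hfix : ∀ a : Fin p, (alternatingGroup (Pt p)).subtype τ (Sum.inr a) = Sum.inr a := by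
      intro a
      rw [Subgroup.subtype_apply, hτ]; exact rot_inr p a
    refine hfin τ (Subtype.ext (by rw [Subgroup.coe_pow, hτ, rot_pow hp.two_le]; rfl)) ?_
    refine construct τ (closure_alt hp3 τ fun h => rot_ne_one hp.two_le (by rw [← hτ, h]; rfl))
      (stab p (alternatingGroup (Pt p)).subtype)
      (stab_ne_top hp.pos fun a => ?_) (stab_self hfix) (stab_cover hfix) l hl hinj
    have h12 : (Sum.inl ⟨1, by omega⟩ : Pt p) ≠ Sum.inl ⟨2, by omega⟩ := by
      intro h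
      have := congrArg Fin.val (Sum.inl_injective h)
      simp at this
    have ha0 : (Sum.inr a : Pt p) ≠ Sum.inl ⟨0, hp.pos⟩ := by simp
    refine ⟨⟨Equiv.swap (Sum.inr a) (Sum.inl ⟨0, hp.pos⟩) *
      Equiv.swap (Sum.inl ⟨1, by omega⟩) (Sum.inl ⟨2, by omega⟩), ?_⟩, ⟨0, hp.pos⟩, ?_⟩
    · rw [Perm.mem_alternatingGroup, map_mul, Equiv.Perm.sign_swap ha0, Equiv.Perm.sign_swap h12]
      norm_num
    · have e : (Equiv.swap (Sum.inl ⟨1, by omega⟩ : Pt p) (Sum.inl ⟨2, by omega⟩)) (Sum.inr a) =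
          Sum.inr a := Equiv.swap_apply_of_ne_of_ne (by simp) (by simp)
      rw [Subgroup.subtype_apply, Equiv.Perm.mul_apply, e, Equiv.swap_apply_left]

end Pool.Agent.KS6_44.CP
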