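import Pool.Agent.KS6_44.CP.Neg

/-!
The classes of `p`-cycles in the alternating group of degree `2 p` (`p` odd) and of transpositions
in the symmetric group of degree 4, covered by `p + 1` proper subgroups.
-/

namespace Pool.Agent.KS6_44.CP

/-- the set of `2 p` points -/
abbrev Pt (p : ℕ) := Fin p ⊕ Fin p

/-- the stabilisers: of the points `inr a` and of the set of all of them -/
def stab {P : Type} [Group P] (p : ℕ) (ρ : P →* Equiv.Perm (Pt p)) : Option (Fin p) → Subgroup P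
  | some a => (MulAction.stabilizer (Equiv.Perm (Pt p)) (Sum.inr a : Pt p)).comap ρ
  | none =>
    { carrier := {x | (∀ a : Fin p, ∃ b : Fin p, ρ x (Sum.inr a) = Sum.inr b) ∧
        ∀ a : Fin p, ∃ b : Fin p, ρ x⁻¹ (Sum.inr a) = Sum.inr b}
      mul_mem' := by
        rintro x y ⟨hx, hx'⟩ ⟨hy, hy'⟩
        refine ⟨fun a => ?_, fun a => ?_⟩
        · obtain ⟨b, hb⟩ := hy a
          obtain ⟨c, hc⟩ := hx b
          exact ⟨c, by rw [map_mul, Equiv.Perm.mul_apply, hb, hc]⟩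
        · obtain ⟨b, hb⟩ := hx' a
          obtain ⟨c, hc⟩ := hy' b
          exact ⟨c, by rw [mul_inv_rev, map_mul, Equiv.Perm.mul_apply, hb, hc]⟩
      one_mem' := ⟨fun a => ⟨a, by simp⟩, fun a => ⟨a, by simp⟩⟩
      inv_mem' := by
        rintro x ⟨hx, hx'⟩
        exact ⟨hx', by simpa using hx⟩ }

section
variable {P : Type} [Group P] {p : ℕ} {ρ : P →* Equiv.Perm (Pt p)}

lemma mem_stab_some {a : Fin p} {x : P} :
    x ∈ stab p ρ (some a) ↔ ρ x (Sum.inr a) = Sum.inr a := Iff.rfl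

lemma mem_stab_none {x : P} : x ∈ stab p ρ none ↔
    (∀ a : Fin p, ∃ b : Fin p, ρ x (Sum.inr a) = Sum.inr b) ∧
        ∀ a : Fin p, ∃ b : Fin p, ρ x⁻¹ (Sum.inr a) = Sum.inr b := Iff.rfl

lemma stab_self {τ : P} (h : ∀ a : Fin p, ρ τ (Sum.inr a) = Sum.inr a) (i : Option (Fin p)) :
    τ ∈ stab p ρ i := by
  have h' : ∀ a : Fin p, ρ τ⁻¹ (Sum.inr a) = Sum.inr a := by
    intro a
    rw [map_inv, Equiv.Perm.inv_eq_iff_eq, h]
  cases i with
  | some a => exact h a
  | none => exact ⟨fun a => ⟨a, h a⟩, fun a => ⟨a, h' a⟩⟩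

lemma stab_ne_top (hp : 0 < p)
    (h : ∀ a : Fin p, ∃ x : P, ∃ b : Fin p, ρ x (Sum.inr a) = Sum.inl b) (i : Option (Fin p)) :
    stab p ρ i ≠ ⊤ := by
  intro htop
  cases i with
  | some a =>
    obtain ⟨x, b, hx⟩ := h a
    have : x ∈ stab p ρ (some a) := by rw [htop]; exact Subgroup.mem_top x
    rw [mem_stab_some, hx] at this
    exact absurd this (by simp)
  | none =>
    obtain ⟨x, b, hx⟩ := h ⟨0, hp⟩
    have : x ∈ stab p ρ none := by rw [htop]; exact Subgroup.mem_top x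
    obtain ⟨c, hc⟩ := this.1 ⟨0, hp⟩
    rw [hx] at hc
    exact absurd hc (by simp)

lemma stab_cover {τ : P} (h : ∀ a : Fin p, ρ τ (Sum.inr a) = Sum.inr a) (g : P) :
    ∃ i, g * τ * g⁻¹ ∈ stab p ρ i := by
  classical
  obtain ⟨t, ht⟩ : ∃ t, t = g * τ * g⁻¹ := ⟨_, rfl⟩
  rw [← ht]
  by_cases hall : ∃ a : Fin p, ρ t (Sum.inr a) = Sum.inr a
  · obtain ⟨a, ha⟩ := hall
    exact ⟨some a, ha⟩
  · push Not at hall
    refine ⟨none, ?_⟩
    obtain ⟨B, hB⟩ : ∃ B : Finset (Pt p), B = Finset.univ.map ⟨Sum.inr, Sum.inr_injective⟩ :=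
      ⟨_, rfl⟩
    obtain ⟨A, hA⟩ : ∃ A : Finset (Pt p), A = Finset.univ.map ⟨Sum.inl, Sum.inl_injective⟩ :=
      ⟨_, rfl⟩
    obtain ⟨S, hS⟩ : ∃ S : Finset (Pt p), S = Finset.univ.filter fun x => ρ t x ≠ x := ⟨_, rfl⟩
    have hSA : S ⊆ A.map (ρ g).toEmbedding := by
      intro x hx
      rw [hS, Finset.mem_filter] at hx
      rw [Finset.mem_map]
      refine ⟨(ρ g)⁻¹ x, ?_, by simp⟩
      rw [hA, Finset.mem_map]
      rcases hy : (ρ g)⁻¹ x with a | a
      · exact ⟨a, Finset.mem_univ _, rfl⟩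
      · exfalso
        apply hx.2
        rw [ht, map_mul, map_mul, map_inv, Equiv.Perm.mul_apply, Equiv.Perm.mul_apply, hy, h, ← hy]
        simp
    have hBS : B ⊆ S := by
      intro x hx
      rw [hB, Finset.mem_map] at hx
      obtain ⟨a, -, rfl⟩ := hx
      rw [hS, Finset.mem_filter]
      exact ⟨Finset.mem_univ _, hall a⟩
    have hcard : S.card ≤ B.card := by
      have := Finset.card_le_card hSA
      rw [Finset.card_map, hA, Finset.card_map] at this
      rw [hB, Finset.card_map]; exact this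
    have hBS' : B = S := Finset.eq_of_subset_of_card_le hBS hcard
    have key : ∀ a : Fin p, ∃ b : Fin p, ρ t (Sum.inr a) = Sum.inr b := by
      intro a
      have h1 : ρ t (Sum.inr a) ∈ S := by
        rw [hS, Finset.mem_filter]
        exact ⟨Finset.mem_univ _, fun hc => hall a ((ρ t).injective hc)⟩
      rw [← hBS', hB, Finset.mem_map] at h1
      obtain ⟨b, -, hb⟩ := h1
      exact ⟨b, hb.symm⟩
    refine ⟨key, fun a => ?_⟩
    have h1 : ρ t⁻¹ (Sum.inr a) ∈ S := by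
      rw [hS, Finset.mem_filter]
      refine ⟨Finset.mem_univ _, fun hc => hall a ?_⟩
      have e : ρ t (ρ t⁻¹ (Sum.inr a)) = Sum.inr a := by
        rw [← Equiv.Perm.mul_apply, ← map_mul, mul_inv_cancel, map_one]; rfl
      rw [e] at hc
      rw [hc, e]; exact hc
    rw [← hBS', hB, Finset.mem_map] at h1
    obtain ⟨b, -, hb⟩ := h1
    exact ⟨b, hb.symm⟩

end

/-- the rotation of the first half -/
def rot (p : ℕ) : Equiv.Perm (Pt p) := Equiv.Perm.sumCongr (finRotate p) 1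

lemma rot_inr (p : ℕ) (a : Fin p) : rot p (Sum.inr a) = Sum.inr a := by simp [rot]

lemma rot_pow {p : ℕ} (hp : 2 ≤ p) : rot p ^ p = 1 := by
  have h1 : (finRotate p) ^ p = 1 := by
    obtain ⟨n, rfl⟩ : ∃ n, p = n + 2 := ⟨p - 2, by omega⟩
    have h2 : orderOf (finRotate (n + 2)) = n + 2 := by
      rw [isCycle_finRotate.orderOf, support_finRotate]; simp
    have := pow_orderOf_eq_one (finRotate (n + 2))
    rwa [h2] at this
  unfold rot
  have : ∀ k : ℕ, Equiv.Perm.sumCongr (finRotate p) 1 ^ k =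
      (Equiv.Perm.sumCongr ((finRotate p) ^ k) 1 : Equiv.Perm (Pt p)) := by
    intro k
    induction k with
    | zero => simp
    | succ k ih => rw [pow_succ, ih, Equiv.Perm.sumCongr_mul, pow_succ, one_mul]
  rw [this, h1]; simp

lemma rot_ne_one {p : ℕ} (hp : 2 ≤ p) : rot p ≠ 1 := by
  obtain ⟨n, rfl⟩ : ∃ n, p = n + 2 := ⟨p - 2, by omega⟩
  intro h
  have := congrArg (fun f : Equiv.Perm (Pt (n + 2)) => f (Sum.inl 0)) h
  simp [rot] at this

lemma rot_sign {p : ℕ} (hp : Odd p) : Equiv.Perm.sign (rot p) = 1 := by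
  obtain ⟨m, rfl⟩ := hp
  unfold rot
  rw [Equiv.Perm.sign_sumCongr, sign_finRotate]
  simp

end Pool.Agent.KS6_44.CP
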