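import Mathlib

/-!
A construction of finite generating conjugacy classes in which the central powers are not
witnessed.
-/

namespace Pool.Agent.KS6_44.CP

section
variable {P : Type} [Group P] {N : ℕ}

/-- functions on `P` with values in `ZMod N` -/
abbrev VV (P : Type) (N : ℕ) := P → Multiplicative (ZMod N)

/-- the wreath product of `ZMod N` with the regular representation of `P` -/
abbrev WW (P : Type) [Group P] (N : ℕ) := VV P N ⋊[mulAutArrow] P

lemma act_apply (σ : P) (f : VV P N) (g : P) : (mulAutArrow σ f : VV P N) g = f (σ⁻¹ * g) := rfl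

lemma commute_inl {u : VV P N} {z : WW P N} (h : (mulAutArrow z.right u : VV P N) = u) :
    Commute (SemidirectProduct.inl u : WW P N) z := by
  rw [commute_iff_eq]
  apply SemidirectProduct.ext
  · simp only [SemidirectProduct.mul_left, SemidirectProduct.left_inl,
      SemidirectProduct.right_inl, map_one, MulAut.one_apply, h]
    rw [mul_comm]
  · simp

lemma act_of_commute {u : VV P N} {z : WW P N}
    (h : (SemidirectProduct.inl u : WW P N) * z = z * SemidirectProduct.inl u) :
    (mulAutArrow z.right u : VV P N) = u := by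
  have h1 := congrArg SemidirectProduct.left h
  simp only [SemidirectProduct.mul_left, SemidirectProduct.left_inl,
    SemidirectProduct.right_inl, map_one, MulAut.one_apply] at h1
  rw [mul_comm] at h1
  exact (mul_left_cancel h1).symm

/-- a subgroup which contains `c`, maps onto `P` and is generated by the class of `c` in it -/
lemma exists_min [Finite P] [NeZero N] (c : WW P N)
    (hτ : Subgroup.closure (conjugatesOf c.right) = ⊤) :
    ∃ (S : Subgroup (WW P N)) (hc : c ∈ S),
      S.map (SemidirectProduct.rightHom : WW P N →* P) = ⊤ ∧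
      Subgroup.closure (conjugatesOf (⟨c, hc⟩ : S)) = ⊤ := by
  have hfinV : Finite (VV P N) := by
    have : Finite (Multiplicative (ZMod N)) := inferInstanceAs (Finite (ZMod N))
    infer_instance
  have hfin : Finite (WW P N) := Finite.of_equiv _ SemidirectProduct.equivProd.symm
  have hfinS : Finite (Subgroup (WW P N)) := inferInstance
  obtain ⟨S, hS⟩ := (Set.toFinite {S : Subgroup (WW P N) | c ∈ S ∧
    S.map (SemidirectProduct.rightHom : WW P N →* P) = ⊤}).exists_minimal
    ⟨⊤, Subgroup.mem_top c, by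
      rw [← MonoidHom.range_eq_map, MonoidHom.range_eq_top]
      exact SemidirectProduct.rightHom_surjective⟩
  obtain ⟨⟨hcS, hSt⟩, hmin⟩ := hS
  refine ⟨S, hcS, hSt, ?_⟩
  -- the subgroup generated by the class
  obtain ⟨K, hK⟩ : ∃ K : Subgroup S, K = Subgroup.closure (conjugatesOf (⟨c, hcS⟩ : S)) := ⟨_, rfl⟩
  rw [← hK]
  have hmem : K.map S.subtype ∈ {S : Subgroup (WW P N) | c ∈ S ∧
      S.map (SemidirectProduct.rightHom : WW P N →* P) = ⊤} := by
    refine ⟨?_, ?_⟩
    · refine ⟨⟨c, hcS⟩, ?_, rfl⟩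
      rw [hK]
      exact Subgroup.subset_closure (mem_conjugatesOf_self)
    · rw [eq_top_iff, ← hτ, Subgroup.closure_le]
      intro t ht
      have ht' : IsConj c.right t := ht
      obtain ⟨g, hg⟩ := isConj_iff.1 ht'
      have hgt : g ∈ S.map (SemidirectProduct.rightHom : WW P N →* P) := by
        rw [hSt]; exact Subgroup.mem_top g
      obtain ⟨s, hs, rfl⟩ := hgt
      refine ⟨s * c * s⁻¹, ⟨⟨s, hs⟩ * ⟨c, hcS⟩ * ⟨s, hs⟩⁻¹, ?_, rfl⟩, ?_⟩
      · rw [hK]
        apply Subgroup.subset_closure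
        exact isConj_iff.2 ⟨⟨s, hs⟩, rfl⟩
      · rw [← hg]; simp
  have hle : K.map S.subtype ≤ S := by
    rintro _ ⟨x, -, rfl⟩; exact x.2
  have hge := hmin hmem hle
  rw [eq_top_iff]
  intro x _
  obtain ⟨y, hy, hxy⟩ := hge x.2
  have : y = x := Subtype.ext hxy
  rw [← this]; exact hy

/-- **The construction.** -/
theorem construct [Finite P] (τ : P) (hτ : Subgroup.closure (conjugatesOf τ) = ⊤)
    {ι : Type} [Fintype ι] (H : ι → Subgroup P) (hH : ∀ i, H i ≠ ⊤) (hτH : ∀ i, τ ∈ H i)
    (hcov : ∀ g : P, ∃ i, g * τ * g⁻¹ ∈ H i) (l : ι → ℕ) (hl : ∀ i, (l i).Prime)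
    (hinj : Function.Injective l) :
    ∃ (G : Type) (_ : Group G) (_ : Finite G) (c : G),
      Subgroup.closure (conjugatesOf c) = ⊤ ∧ c ^ (orderOf τ * ∏ i, l i) = 1 ∧
      ∀ z ∈ conjugatesOf c, ∃ k : ℕ, Commute (c ^ k) z ∧ c ^ k ∉ Subgroup.center G := by
  classical
  obtain ⟨M, hM⟩ : ∃ M, M = orderOf τ := ⟨_, rfl⟩
  obtain ⟨L, hL⟩ : ∃ L, L = ∏ i, l i := ⟨_, rfl⟩
  rw [← hM, ← hL]
  have hMpos : 0 < M := by rw [hM]; exact orderOf_pos τ
  have hLpos : 0 < L := by rw [hL]; exact Finset.prod_pos fun i _ => (hl i).pos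
  obtain ⟨N, hN⟩ : ∃ N, N = M * L := ⟨_, rfl⟩
  have hNpos : 0 < N := by rw [hN]; exact Nat.mul_pos hMpos hLpos
  have : NeZero N := ⟨hNpos.ne'⟩
  obtain ⟨a, ha⟩ : ∃ a : ι → ℕ, a = fun i => ∏ j ∈ Finset.univ.erase i, l j := ⟨_, rfl⟩
  have haL : ∀ i, l i * a i = L := by
    intro i; rw [ha, hL]; exact Finset.mul_prod_erase _ _ (Finset.mem_univ i)
  have hla : ∀ i j, i ≠ j → l i ∣ a j := by
    intro i j hij
    rw [ha]
    exact Finset.dvd_prod_of_mem l (Finset.mem_erase.2 ⟨hij, Finset.mem_univ i⟩)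
  have hnla : ∀ i, ¬ l i ∣ a i := by
    intro i h
    rw [ha] at h
    obtain ⟨j, hj, hd⟩ := ((hl i).prime.dvd_finsetProd_iff _).1 h
    have := (Nat.prime_dvd_prime_iff_eq (hl i) (hl j)).1 hd
    exact (Finset.mem_erase.1 hj).1 (hinj this.symm)
  obtain ⟨v, hv⟩ : ∃ v : P → ZMod N, v = fun g => ∑ i, if g ∈ H i then (a i : ZMod N) else 0 :=
    ⟨_, rfl⟩
  obtain ⟨w, hw⟩ : ∃ w : VV P N, w = fun g => Multiplicative.ofAdd (v g) := ⟨_, rfl⟩
  obtain ⟨c0, hc0⟩ : ∃ c0 : WW P N, c0 = ⟨w, τ⟩ := ⟨_, rfl⟩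
  have hfix : (mulAutArrow τ w : VV P N) = w := by
    funext g
    rw [act_apply, hw]
    dsimp only
    congr 1
    rw [hv]
    dsimp only
    refine Finset.sum_congr rfl fun i _ => ?_
    have : τ⁻¹ * g ∈ H i ↔ g ∈ H i := (H i).mul_mem_cancel_left ((H i).inv_mem (hτH i))
    simp only [this]
  have hc0' : c0 = SemidirectProduct.inl w * SemidirectProduct.inr τ := by
    rw [hc0]; exact (SemidirectProduct.inl_left_mul_inr_right (⟨w, τ⟩ : WW P N)).symm
  have hcomm : Commute (SemidirectProduct.inl w : WW P N) (SemidirectProduct.inr τ) :=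
    commute_inl (by simpa using hfix)
  have hpow : ∀ k : ℕ, c0 ^ (M * k) = SemidirectProduct.inl (w ^ (M * k)) := by
    intro k
    rw [hc0', hcomm.mul_pow, ← map_pow, ← map_pow, pow_mul τ, hM, pow_orderOf_eq_one, one_pow,
      map_one, mul_one]
  -- the components
  obtain ⟨K, hK⟩ : ∃ K : ι → ℕ, K = fun i => M * a i := ⟨_, rfl⟩
  have hu : ∀ i g, (w ^ (K i)) g =
      Multiplicative.ofAdd (if g ∈ H i then ((M * (a i * a i) : ℕ) : ZMod N) else 0) := by
    intro i g
    rw [Pi.pow_apply, hw]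
    dsimp only
    rw [← ofAdd_nsmul]
    congr 1
    rw [hv]
    dsimp only
    rw [Finset.smul_sum, Finset.sum_eq_single i]
    · by_cases hg : g ∈ H i
      · rw [if_pos hg, if_pos hg, nsmul_eq_mul, hK]
        push_cast; ring
      · rw [if_neg hg, if_neg hg, smul_zero]
    · intro j _ hj
      by_cases hg : g ∈ H j
      · rw [if_pos hg, nsmul_eq_mul, ← Nat.cast_mul, ZMod.natCast_eq_zero_iff, hN, hK]
        obtain ⟨t, ht⟩ := hla i j (Ne.symm hj)
        refine ⟨t, ?_⟩
        rw [← haL i, ht]; ring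
      · rw [if_neg hg, smul_zero]
    · intro h; exact absurd (Finset.mem_univ i) h
  have hne : ∀ i, ((M * (a i * a i) : ℕ) : ZMod N) ≠ 0 := by
    intro i h
    rw [ZMod.natCast_eq_zero_iff, hN] at h
    have h1 := Nat.dvd_of_mul_dvd_mul_left hMpos h
    have h2 : l i ∣ a i * a i := (Dvd.intro _ (haL i)).trans h1
    rcases (hl i).dvd_mul.1 h2 with h3 | h3 <;> exact hnla i h3
  -- the group
  obtain ⟨S, hcS, hSt, hgen⟩ := exists_min c0 (by rw [hc0]; exact hτ)
  have hfinV : Finite (VV P N) := by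
    have : Finite (Multiplicative (ZMod N)) := inferInstanceAs (Finite (ZMod N))
    infer_instance
  have hfin : Finite (WW P N) := Finite.of_equiv _ SemidirectProduct.equivProd.symm
  refine ⟨S, inferInstance, inferInstance, ⟨c0, hcS⟩, hgen, ?_, ?_⟩
  · apply Subtype.ext
    have h1 : c0 ^ (M * L) = 1 := by
      rw [hpow]
      have : w ^ (M * L) = 1 := by
        funext g
        rw [Pi.pow_apply, hw]
        dsimp only
        rw [← ofAdd_nsmul, nsmul_eq_mul, ← hN, ZMod.natCast_self, zero_mul]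
        rfl
      rw [this, map_one]
    exact h1
  · intro z hz
    have hz' : IsConj (⟨c0, hcS⟩ : S) z := hz
    obtain ⟨g, rfl⟩ := isConj_iff.1 hz'
    obtain ⟨i, hi⟩ := hcov (g : WW P N).right
    refine ⟨K i, ?_, ?_⟩
    · have h1 : Commute (c0 ^ (K i)) ((g * ⟨c0, hcS⟩ * g⁻¹ : S) : WW P N) := by
        rw [hK, hpow]
        apply commute_inl
        have hr : ((g * ⟨c0, hcS⟩ * g⁻¹ : S) : WW P N).right =
            (g : WW P N).right * τ * (g : WW P N).right⁻¹ := by
          have e0 : ((g * ⟨c0, hcS⟩ * g⁻¹ : S) : WW P N) = (g : WW P N) * c0 * (g : WW P N)⁻¹ := rfl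
          have e1 : c0.right = τ := by rw [hc0]
          rw [e0, SemidirectProduct.mul_right, SemidirectProduct.mul_right,
            SemidirectProduct.inv_right, e1]
        rw [hr]
        have e : M * a i = K i := by rw [hK]
        rw [e]
        funext x
        rw [act_apply, hu, hu]
        have : ((g : WW P N).right * τ * (g : WW P N).right⁻¹)⁻¹ * x ∈ H i ↔ x ∈ H i :=
          (H i).mul_mem_cancel_left ((H i).inv_mem hi)
        simp only [this]
      rw [commute_iff_eq] at h1 ⊢
      apply Subtype.ext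
      exact h1
    · intro hcen
      -- an element outside `H i`
      obtain ⟨σ, hσ⟩ : ∃ σ, σ ∉ H i := by
        by_contra hcon
        push Not at hcon
        exact hH i ((eq_top_iff).2 fun x _ => hcon x)
      have hσt : σ ∈ S.map (SemidirectProduct.rightHom : WW P N →* P) := by
        rw [hSt]; exact Subgroup.mem_top σ
      obtain ⟨s, hs, hsσ⟩ := hσt
      rw [Subgroup.mem_center_iff] at hcen
      have h1 := congrArg Subtype.val (hcen ⟨s, hs⟩)
      have h2 : s * c0 ^ (K i) = c0 ^ (K i) * s := h1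
      have e : K i = M * a i := by rw [hK]
      rw [e, hpow, ← e] at h2
      have h3 := act_of_commute h2.symm
      have hsr : s.right = σ := hsσ
      rw [hsr] at h3
      have h4 := congrFun h3 1
      rw [act_apply, hu, hu, mul_one, if_pos (H i).one_mem,
        if_neg (fun h => hσ (by simpa using (H i).inv_mem h))] at h4
      exact hne i (Multiplicative.ofAdd.injective h4).symm

end

end Pool.Agent.KS6_44.CP
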