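import Mathlib

/-!
Finite generating conjugacy classes: the case of at most two primes.
-/

namespace Pool.Agent.KS6_44.CP

/-- `C` is a finite conjugacy class of `G` that generates `G`. -/
def GenClass {G : Type*} [Group G] (C : Set G) : Prop :=
  C.Finite ∧ (∃ c : G, C = conjugatesOf c) ∧ Subgroup.closure C = ⊤

/-- the order of `c` modulo the centre -/
noncomputable def ordMod {G : Type*} [Group G] (c : G) : ℕ :=
  orderOf (QuotientGroup.mk c : G ⧸ Subgroup.center G)

/-- some `z ∈ C` commutes with no power of `c` except the central ones -/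
def Witnessed {G : Type*} [Group G] (C : Set G) (c : G) : Prop :=
  ∃ z ∈ C, ∀ k : ℤ, c ^ k ∈ Subgroup.center G ↔ Commute (c ^ k) z

section
variable {G : Type*} [Group G]

lemma zpow_mem_center_iff (c : G) (k : ℤ) :
    c ^ k ∈ Subgroup.center G ↔ (ordMod c : ℤ) ∣ k := by
  unfold ordMod
  rw [orderOf_dvd_iff_zpow_eq_one, ← QuotientGroup.mk_zpow, QuotientGroup.eq_one_iff]

lemma pow_mem_center_iff (c : G) (k : ℕ) :
    c ^ k ∈ Subgroup.center G ↔ ordMod c ∣ k := by
  rw [← zpow_natCast, zpow_mem_center_iff, Int.natCast_dvd_natCast]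

/-- conjugation by an element of `C` keeps the conjugacy class -/
lemma conj_mem {C : Set G} (hC : ∃ c : G, C = conjugatesOf c) {x : G} (hx : x ∈ C) (g : G) :
    g * x * g⁻¹ ∈ C := by
  obtain ⟨c, rfl⟩ := hC
  have hx' : IsConj c x := hx
  exact hx'.trans (isConj_iff.2 ⟨g, rfl⟩)

/-- a generating conjugacy class is not covered by two proper subgroups -/
theorem not_cover {C : Set G} (hC : ∃ c : G, C = conjugatesOf c)
    (hgen : Subgroup.closure C = ⊤) {A B : Subgroup G} (hA : A ≠ ⊤) (hB : B ≠ ⊤) :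
    ∃ z ∈ C, z ∉ A ∧ z ∉ B := by
  by_contra hcon
  push Not at hcon
  -- `Y = C \ A`
  obtain ⟨Y, hY⟩ : ∃ Y : Set G, Y = C \ (A : Set G) := ⟨_, rfl⟩
  have hYB : Y ⊆ B := by
    rw [hY]; rintro y ⟨hy, hyA⟩; exact hcon y hy hyA
  have hYne : Y.Nonempty := by
    rw [Set.nonempty_iff_ne_empty]
    intro h
    apply hA
    rw [eq_top_iff, ← hgen, Subgroup.closure_le]
    intro x hx
    by_contra hxA
    have : x ∈ Y := by rw [hY]; exact ⟨hx, hxA⟩
    rw [h] at this
    exact this
  -- every element of `C` normalises `⟨Y⟩`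
  have hnorm : ∀ g ∈ C, ∀ y ∈ Y, g * y * g⁻¹ ∈ Subgroup.closure Y := by
    intro g hg y hy
    by_cases hgA : g ∈ A
    · apply Subgroup.subset_closure
      rw [hY] at hy ⊢
      refine ⟨conj_mem hC hy.1 g, fun h => hy.2 ?_⟩
      have := A.mul_mem (A.mul_mem (A.inv_mem hgA) h) hgA
      simpa [mul_assoc] using this
    · have hgY : g ∈ Subgroup.closure Y := Subgroup.subset_closure (by rw [hY]; exact ⟨hg, hgA⟩)
      exact (Subgroup.closure Y).mul_mem ((Subgroup.closure Y).mul_mem hgY
        (Subgroup.subset_closure hy)) ((Subgroup.closure Y).inv_mem hgY)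
  have hnorm' : ∀ g ∈ C, ∀ y ∈ Y, g⁻¹ * y * g ∈ Subgroup.closure Y := by
    intro g hg y hy
    by_cases hgA : g ∈ A
    · apply Subgroup.subset_closure
      rw [hY] at hy ⊢
      refine ⟨by simpa using conj_mem hC hy.1 g⁻¹, fun h => hy.2 ?_⟩
      have := A.mul_mem (A.mul_mem hgA h) (A.inv_mem hgA)
      simpa [mul_assoc] using this
    · have hgY : g ∈ Subgroup.closure Y := Subgroup.subset_closure (by rw [hY]; exact ⟨hg, hgA⟩)
      exact (Subgroup.closure Y).mul_mem ((Subgroup.closure Y).mul_mem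
        ((Subgroup.closure Y).inv_mem hgY) (Subgroup.subset_closure hy)) hgY
  have hmem : ∀ g ∈ C, g ∈ Subgroup.normalizer (Subgroup.closure Y : Set G) := by
    intro g hg
    rw [Subgroup.mem_normalizer_iff]
    intro x
    constructor
    · intro hx
      induction hx using Subgroup.closure_induction with
      | mem y hy => exact hnorm g hg y hy
      | one => simp [Subgroup.one_mem]
      | mul a b _ _ ha hb =>
        have : g * (a * b) * g⁻¹ = (g * a * g⁻¹) * (g * b * g⁻¹) := by group
        rw [this]; exact (Subgroup.closure Y).mul_mem ha hb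
      | inv a _ ha =>
        have : g * a⁻¹ * g⁻¹ = (g * a * g⁻¹)⁻¹ := by group
        rw [this]; exact (Subgroup.closure Y).inv_mem ha
    · intro hx
      have key : ∀ w ∈ Subgroup.closure Y, g⁻¹ * w * g ∈ Subgroup.closure Y := by
        intro w hw
        induction hw using Subgroup.closure_induction with
        | mem y hy => exact hnorm' g hg y hy
        | one => simp [Subgroup.one_mem]
        | mul a b _ _ ha hb =>
          have : g⁻¹ * (a * b) * g = (g⁻¹ * a * g) * (g⁻¹ * b * g) := by group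
          rw [this]; exact (Subgroup.closure Y).mul_mem ha hb
        | inv a _ ha =>
          have : g⁻¹ * a⁻¹ * g = (g⁻¹ * a * g)⁻¹ := by group
          rw [this]; exact (Subgroup.closure Y).inv_mem ha
      have := key _ hx
      have e : g⁻¹ * (g * x * g⁻¹) * g = x := by group
      rwa [e] at this
  have hntop : Subgroup.normalizer (Subgroup.closure Y : Set G) = ⊤ := by
    rw [eq_top_iff, ← hgen, Subgroup.closure_le]
    exact hmem
  have hnormal : (Subgroup.closure Y).Normal := Subgroup.normalizer_eq_top_iff.1 hntop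
  -- hence `C ⊆ ⟨Y⟩`
  obtain ⟨y, hy⟩ := hYne
  have hyC : y ∈ C := by rw [hY] at hy; exact hy.1
  apply hB
  rw [eq_top_iff, ← hgen, Subgroup.closure_le]
  intro x hx
  have hxy : IsConj y x := by
    obtain ⟨c, rfl⟩ := hC
    have hx' : IsConj c x := hx
    have hy' : IsConj c y := hyC
    exact hy'.symm.trans hx'
  obtain ⟨g, hg⟩ := isConj_iff.1 hxy
  have : x ∈ Subgroup.closure Y := by
    rw [← hg]; exact hnormal.conj_mem _ (Subgroup.subset_closure hy) g
  exact (Subgroup.closure_le B).2 hYB this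

lemma ordMod_pos {C : Set G} (hC : GenClass C) {c : G} : 0 < ordMod c := by
  obtain ⟨hfin, hcl, hgen⟩ := hC
  have h1 : ∀ z ∈ C, ∃ k : ℕ, 0 < k ∧ Commute (c ^ k) z := by
    intro z hz
    have hmap : ∀ j : ℕ, c ^ j * z * (c ^ j)⁻¹ ∈ C := fun j => conj_mem hcl hz _
    obtain ⟨i, j, hij, he⟩ : ∃ i j : ℕ, i < j ∧ c ^ i * z * (c ^ i)⁻¹ = c ^ j * z * (c ^ j)⁻¹ := by
      have := hfin.to_subtype
      obtain ⟨i, j, hne, he⟩ := Finite.exists_ne_map_eq_of_infinite
        (fun j : ℕ => (⟨c ^ j * z * (c ^ j)⁻¹, hmap j⟩ : C))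
      have he' : c ^ i * z * (c ^ i)⁻¹ = c ^ j * z * (c ^ j)⁻¹ := congrArg Subtype.val he
      rcases lt_or_gt_of_ne hne with h | h
      · exact ⟨i, j, h, he'⟩
      · exact ⟨j, i, h, he'.symm⟩
    refine ⟨j - i, by omega, ?_⟩
    obtain ⟨d, rfl⟩ : ∃ d, j = i + d := ⟨j - i, by omega⟩
    rw [Nat.add_sub_cancel_left]
    have h2 : z = c ^ d * z * (c ^ d)⁻¹ := by
      have h3 : c ^ i * z * (c ^ i)⁻¹ = c ^ i * (c ^ d * z * (c ^ d)⁻¹) * (c ^ i)⁻¹ := by
        rw [he, pow_add]; group
      exact mul_left_cancel (mul_right_cancel h3)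
    rw [commute_iff_eq]
    calc c ^ d * z = (c ^ d * z * (c ^ d)⁻¹) * c ^ d := by group
      _ = z * c ^ d := by rw [← h2]
  choose! k hk0 hk using h1
  have hK : c ^ (∏ z ∈ hfin.toFinset, k z) ∈ Subgroup.center G := by
    rw [Subgroup.mem_center_iff]
    have : ∀ z ∈ C, Commute (c ^ (∏ z ∈ hfin.toFinset, k z)) z := by
      intro z hz
      obtain ⟨t, ht⟩ := Finset.dvd_prod_of_mem k (hfin.mem_toFinset.2 hz)
      rw [ht, pow_mul]
      exact (hk z hz).pow_left t
    intro g
    have hg : g ∈ Subgroup.closure C := by rw [hgen]; exact Subgroup.mem_top g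
    induction hg using Subgroup.closure_induction with
    | mem z hz => exact (this z hz).eq.symm
    | one => simp
    | mul a b _ _ ha hb =>
      rw [mul_assoc, hb, ← mul_assoc, ha, mul_assoc]
    | inv a _ ha =>
      have h : Commute a (c ^ (∏ z ∈ hfin.toFinset, k z)) := ha
      exact h.inv_left
  rw [pow_mem_center_iff] at hK
  refine Nat.pos_of_dvd_of_pos hK (Finset.prod_pos fun z hz => hk0 z (hfin.mem_toFinset.1 hz))

/-- **At most two primes.** -/
theorem witnessed_of_two {C : Set G} (hC : GenClass C) {c : G} (hc : c ∈ C)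
    (h2 : (ordMod c).primeFactors.card ≤ 2) : Witnessed C c := by
  have hm := ordMod_pos hC (c := c)
  obtain ⟨m, hmdef⟩ : ∃ m, m = ordMod c := ⟨_, rfl⟩
  rw [← hmdef] at hm h2
  -- two primes
  obtain ⟨p, q, hpq⟩ : ∃ p q : ℕ, m.primeFactors ⊆ {p, q} := by
    have := h2
    interval_cases h : m.primeFactors.card
    · rw [Finset.card_eq_zero] at h
      exact ⟨0, 0, by rw [h]; exact Finset.empty_subset _⟩
    · obtain ⟨p, hp⟩ := Finset.card_eq_one.1 h
      exact ⟨p, p, by rw [hp]; simp⟩
    · obtain ⟨p, q, -, hp⟩ := Finset.card_eq_two.1 h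
      exact ⟨p, q, by rw [hp]⟩
  -- proper subgroups
  have hprop : ∀ l ∈ m.primeFactors, Subgroup.centralizer {c ^ (m / l)} ≠ ⊤ := by
    intro l hl htop
    have hlp := Nat.prime_of_mem_primeFactors hl
    have hld := Nat.dvd_of_mem_primeFactors hl
    have h1 : c ^ (m / l) ∈ Subgroup.center G := by
      rw [Subgroup.mem_center_iff]
      intro g
      have hg : g ∈ Subgroup.centralizer {c ^ (m / l)} := by rw [htop]; exact Subgroup.mem_top g
      rw [Subgroup.mem_centralizer_iff] at hg
      exact (hg _ rfl).symm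
    rw [pow_mem_center_iff, ← hmdef] at h1
    have h3 : 0 < m / l := Nat.div_pos (Nat.le_of_dvd hm hld) hlp.pos
    have h4 := Nat.le_of_dvd h3 h1
    have h5 : m / l < m := Nat.div_lt_self hm hlp.one_lt
    omega
  -- the subgroups for p and q (or the trivial modification)
  obtain ⟨z, hz, hzp⟩ : ∃ z ∈ C, ∀ l ∈ m.primeFactors, ¬ Commute (c ^ (m / l)) z := by
    by_cases hne : m.primeFactors = ∅
    · exact ⟨c, hc, fun l hl => by rw [hne] at hl; exact absurd hl (Finset.notMem_empty l)⟩
    · obtain ⟨l0, hl0⟩ := Finset.nonempty_iff_ne_empty.2 hne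
      have hex : ∀ p : ℕ, ∃ l ∈ m.primeFactors, p ∈ m.primeFactors → l = p := by
        intro p
        by_cases hp : p ∈ m.primeFactors
        · exact ⟨p, hp, fun _ => rfl⟩
        · exact ⟨l0, hl0, fun h => absurd h hp⟩
      obtain ⟨l1, hl1, e1⟩ := hex p
      obtain ⟨l2, hl2, e2⟩ := hex q
      obtain ⟨z, hz, h1, h2⟩ := not_cover hC.2.1 hC.2.2 (hprop l1 hl1) (hprop l2 hl2)
      refine ⟨z, hz, fun l hl hcom => ?_⟩
      have hmem : z ∈ Subgroup.centralizer {c ^ (m / l)} := by
        rw [Subgroup.mem_centralizer_iff]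
        rintro h rfl
        exact hcom.eq
      have := hpq hl
      rw [Finset.mem_insert, Finset.mem_singleton] at this
      rcases this with rfl | rfl
      · rw [e1 hl] at h1; exact h1 hmem
      · rw [e2 hl] at h2; exact h2 hmem
  refine ⟨z, hz, fun k => ⟨fun h => ?_, fun h => ?_⟩⟩
  · rw [Subgroup.mem_center_iff] at h
    exact (h z).symm
  · rw [zpow_mem_center_iff, ← hmdef]
    obtain ⟨d, hd⟩ : ∃ d : ℕ, d = Int.gcd k m := ⟨_, rfl⟩
    have hdm : d ∣ m := by
      rw [hd]; exact Int.natCast_dvd_natCast.1 (Int.gcd_dvd_right k m)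
    have hcm : Commute (c ^ m) z := by
      have : c ^ m ∈ Subgroup.center G := by rw [pow_mem_center_iff, hmdef]
      rw [Subgroup.mem_center_iff] at this
      exact (this z).symm
    have hcd : Commute (c ^ d) z := by
      have e : (d : ℤ) = k * Int.gcdA k m + m * Int.gcdB k m := by
        rw [hd]; exact Int.gcd_eq_gcd_ab k m
      rw [← zpow_natCast, e, zpow_add, zpow_mul, zpow_mul, zpow_natCast]
      exact (h.zpow_left _).mul_left (hcm.zpow_left _)
    have hdm' : d = m := by
      by_contra hne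
      have h1 : m / d ≠ 1 := by
        intro h1
        apply hne
        have := Nat.div_mul_cancel hdm
        rw [h1, one_mul] at this
        exact this
      obtain ⟨l, hl, hld⟩ := Nat.exists_prime_and_dvd h1
      have hmd : m / d ∣ m := Nat.div_dvd_of_dvd hdm
      have hlm : l ∈ m.primeFactors := Nat.mem_primeFactors.2 ⟨hl, hld.trans hmd, hm.ne'⟩
      obtain ⟨t, ht⟩ := hld
      have e : m / l = d * t := by
        have : m = l * (d * t) := by
          have := Nat.div_mul_cancel hdm
          rw [ht] at this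
          rw [← this]; ring
        rw [this, Nat.mul_div_cancel_left _ hl.pos]
      apply hzp l hlm
      rw [e, pow_mul]
      exact hcd.pow_left t
    rw [← hdm', hd]
    exact Int.gcd_dvd_left k m

end

end Pool.Agent.KS6_44.CP
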